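import Mathlib
import Pool.Agent.Q89.WA5d

set_option autoImplicit false

/-!
# A finitely generated dense subgroup of subexponential growth in the iterated wreath product of `A₅`

The group is generated by the rooted automorphism `a = (0 2)(1 3)` and by the directed
automorphisms `b_β = (b_{nx β}, a^{th β}, 1, 1, 1) · t^j`, `β = (e, f, j)` in `C₂ × C₂ × C₃`,
`t = (2 3 4)`, `nx (e, f, j) = (f, e + f, j)`, `th (e, f, j) = e + f`.
-/

namespace Pool.Agent.Results.MP_092669_al.DenseSubexponential

open Filter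

/-- Membership in the infinite iterated wreath product `W` of `A₅`, as a group of permutations of
the vertices of the tree of all finite words over `{0, ..., 4}`: the root is fixed, and at every
vertex `v` the local permutation is even. -/
def InW (g : Equiv.Perm (List (Fin 5))) : Prop :=
  g [] = [] ∧ ∀ v : List (Fin 5), ∃ σ ∈ alternatingGroup (Fin 5),
    ∀ x : Fin 5, g (v ++ [x]) = g v ++ [σ x]

/-- The number of elements of word length at most `r` with respect to `S ∪ S⁻¹`. -/
noncomputable def growth {G : Type} [Group G] (S : Set G) (r : ℕ) : ℕ :=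
  {g : G | ∃ l : List G, l.length ≤ r ∧ (∀ s ∈ l, s ∈ S ∨ s⁻¹ ∈ S) ∧ l.prod = g}.ncard

/-- The subgroup `Γ` is dense: on the vertices of depth at most `n` it induces everything that `W`
induces, for every `n`. -/
def Dense (Γ : Subgroup (Equiv.Perm (List (Fin 5)))) : Prop :=
  ∀ (n : ℕ) (w : Equiv.Perm (List (Fin 5))), InW w →
    ∃ γ ∈ Γ, ∀ v : List (Fin 5), v.length ≤ n → γ v = w v

/-- `W` has a finitely generated dense subgroup of subexponential growth. -/
theorem result : ∃ (Γ : Subgroup (Equiv.Perm (List (Fin 5))))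
    (S : Finset (Equiv.Perm (List (Fin 5)))), Subgroup.closure (S : Set _) = Γ ∧
      (∀ g ∈ Γ, InW g) ∧ Dense Γ ∧
      Tendsto (fun r : ℕ => (growth (S : Set (Equiv.Perm (List (Fin 5)))) r : ℝ) ^ (1 / (r : ℝ)))
        atTop (nhds 1) := by
  refine ⟨Q89.WA5.Ga, Q89.WA5.S0_fin.toFinset, ?_, ?_, ?_, ?_⟩
  · rw [Set.Finite.coe_toFinset]
    rfl
  · intro g hg
    exact Q89.WA5.Ga_le_W hg
  · intro n w hw
    obtain ⟨d, hd, h⟩ := Q89.WA5.dense n w hw
    exact ⟨d, Q89.WA5.R_le_Ga (Q89.WA5.D_le_R hd), h⟩
  · rw [Set.Finite.coe_toFinset]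
    exact Q89.WA5.growth_tendsto

end Pool.Agent.Results.MP_092669_al.DenseSubexponential
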